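import Pool.Agent.N463.HW.Stm

/-!
# Project HW (helper463): smoothness of `NN`
-/

set_option autoImplicit false

namespace Pool.Agent.N72.HW

open Pool.Agent.N463.HW

lemma X_summable (x : X) : Summable (fun n => ‖x n‖) := by
  have h := (memℓp_gen_iff (p := 1) (by norm_num)).1 x.2
  simpa using h

lemma X_norm (x : X) : ‖x‖ = ∑' n, ‖x n‖ := by
  rw [lp.norm_eq_tsum_rpow (by norm_num)]
  simp

lemma smul_sum (w : ℕ → W) (c : ℝ) (hc : ∀ n, ‖w n‖ ≤ c) (x : X) :
    Summable (fun n => x n • w n) := by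
  refine Summable.of_norm_bounded (g := fun n => ‖x n‖ * c) ((X_summable x).mul_right c)
    fun n => ?_
  rw [norm_smul]
  exact mul_le_mul_of_nonneg_left (hc n) (norm_nonneg _)

/-- `x ↦ ∑ x n • w n` -/
noncomputable def lin (w : ℕ → W) (c : ℝ) (hc : ∀ n, ‖w n‖ ≤ c) : X →L[ℝ] W :=
  LinearMap.mkContinuous
    { toFun := fun x => ∑' n, x n • w n
      map_add' := fun x y => by
        rw [← (smul_sum w c hc x).tsum_add (smul_sum w c hc y)]
        refine tsum_congr fun n => ?_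
        rw [← add_smul]
        rfl
      map_smul' := fun a x => by
        rw [RingHom.id_apply, ← (smul_sum w c hc x).tsum_const_smul a]
        refine tsum_congr fun n => ?_
        rw [smul_smul]
        rfl } c (fun x => by
      rw [X_norm]
      refine tsum_of_norm_bounded ((X_summable x).hasSum.mul_left c) fun n => ?_
      rw [norm_smul, mul_comm]
      exact mul_le_mul_of_nonneg_right (hc n) (norm_nonneg _))

lemma lin_apply (w : ℕ → W) (c : ℝ) (hc : ∀ n, ‖w n‖ ≤ c) (x : X) :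
    lin w c hc x = ∑' n, x n • w n := rfl

/-- `Gp` as a continuous linear map -/
noncomputable def cA : ℝ × X →L[ℝ] W :=
  (ContinuousLinearMap.fst ℝ ℝ X).smulRight (sh 1) +
    (lin (fun n => sh ((n : ℤ) + 2)) 1 (fun _ => sh_norm _)).comp (ContinuousLinearMap.snd ℝ ℝ X)

/-- `Gm` as a continuous linear map -/
noncomputable def cB : ℝ × X →L[ℝ] W :=
  (ContinuousLinearMap.fst ℝ ℝ X).smulRight (sh (-1)) +
    (lin (fun n => sh (-((n : ℤ) + 2))) 1 (fun _ => sh_norm _)).comp (ContinuousLinearMap.snd ℝ ℝ X)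

lemma w_le (n : ℕ) :
    ‖(1 / ((n : ℝ) + 2)) • (sh ((n : ℤ) + 2) + sh (-((n : ℤ) + 2)))‖ ≤ 2 := by
  rw [norm_smul, Real.norm_of_nonneg (by positivity)]
  have h1 : ‖sh ((n : ℤ) + 2) + sh (-((n : ℤ) + 2))‖ ≤ 1 + 1 :=
    (norm_add_le _ _).trans (add_le_add (sh_norm _) (sh_norm _))
  have h2 : 1 / ((n : ℝ) + 2) ≤ 1 := by
    rw [div_le_one (by positivity)]
    have : (0 : ℝ) ≤ n := Nat.cast_nonneg n
    linarith
  calc _ ≤ 1 * (1 + 1 : ℝ) := mul_le_mul h2 h1 (norm_nonneg _) zero_le_one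
    _ = 2 := by norm_num

/-- `vv` as a continuous linear map -/
noncomputable def cV : ℝ × X →L[ℝ] W :=
  (ContinuousLinearMap.fst ℝ ℝ X).smulRight (sh 1 + sh (-1)) +
    (lin (fun n => (1 / ((n : ℝ) + 2)) • (sh ((n : ℤ) + 2) + sh (-((n : ℤ) + 2)))) 2 w_le).comp
      (ContinuousLinearMap.snd ℝ ℝ X)

lemma cA_apply (q : ℝ × X) : cA q = Gp q.1 q.2 := rfl

lemma cB_apply (q : ℝ × X) : cB q = Gm q.1 q.2 := rfl

lemma cV_apply (q : ℝ × X) : cV q = vv q.1 q.2 := by
  show q.1 • (sh 1 + sh (-1)) +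
    ∑' n : ℕ, q.2 n • ((1 / ((n : ℝ) + 2)) • (sh ((n : ℤ) + 2) + sh (-((n : ℤ) + 2)))) = _
  unfold vv
  congr 1
  refine tsum_congr fun n => ?_
  rw [smul_smul, mul_one_div]

lemma exp_cd : ContDiff ℝ 2 (NormedSpace.exp : W → W) :=
  contDiff_iff_contDiffAt.2 fun x => (NormedSpace.exp_analytic x).contDiffAt

lemma NN_eq (P : ℝ) (q : ℝ × X) : NN P q.1 q.2 =
    NormedSpace.exp (-(P • (NormedSpace.exp (cV q) - 1))) *
      (1 + cA q + (P • NormedSpace.exp (cV q)) * (1 + cB q)) := by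
  rw [cA_apply, cB_apply, cV_apply]
  rfl

/-- **`NN` is smooth.** -/
theorem t_SMO : S_SMO := by
  refine ⟨?_, ?_, ?_⟩
  · have hA : ContDiff ℝ 2 (fun p : ℝ × ℝ × X => cA p.2) := cA.contDiff.comp contDiff_snd
    have hB : ContDiff ℝ 2 (fun p : ℝ × ℝ × X => cB p.2) := cB.contDiff.comp contDiff_snd
    have hV : ContDiff ℝ 2 (fun p : ℝ × ℝ × X => cV p.2) := cV.contDiff.comp contDiff_snd
    have hP : ContDiff ℝ 2 (fun p : ℝ × ℝ × X => p.1) := contDiff_fst
    have hE : ContDiff ℝ 2 (fun p : ℝ × ℝ × X => NormedSpace.exp (cV p.2)) := exp_cd.comp hV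
    have h1 : ContDiff ℝ 2 (fun p : ℝ × ℝ × X =>
        NormedSpace.exp (-(p.1 • (NormedSpace.exp (cV p.2) - 1)))) :=
      exp_cd.comp (hP.smul (hE.sub contDiff_const)).neg
    have h2 : ContDiff ℝ 2 (fun p : ℝ × ℝ × X =>
        1 + cA p.2 + (p.1 • NormedSpace.exp (cV p.2)) * (1 + cB p.2)) :=
      (contDiff_const.add hA).add ((hP.smul hE).mul (contDiff_const.add hB))
    have h3 := h1.mul h2
    have e : (fun p : ℝ × ℝ × X => NN p.1 p.2.1 p.2.2) = fun p : ℝ × ℝ × X =>
        NormedSpace.exp (-(p.1 • (NormedSpace.exp (cV p.2) - 1))) *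
          (1 + cA p.2 + (p.1 • NormedSpace.exp (cV p.2)) * (1 + cB p.2)) := by
      funext p
      exact NN_eq p.1 p.2
    rw [e]
    exact h3
  · intro P
    have h := NN_eq P 0
    rw [map_zero, map_zero, map_zero, NormedSpace.exp_zero, sub_self, smul_zero, neg_zero,
      NormedSpace.exp_zero, one_mul, add_zero, mul_one] at h
    rw [add_smul, one_smul]
    exact h
  · intro P
    have hE : HasFDerivAt (fun q : ℝ × X => NormedSpace.exp (cV q)) cV 0 := by
      have h0 : HasFDerivAt (NormedSpace.exp : W → W) (1 : W →L[ℝ] W) (cV 0) := by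
        rw [map_zero]
        exact hasFDerivAt_exp_zero
      exact h0.comp (0 : ℝ × X) cV.hasFDerivAt
    have hu : HasFDerivAt (fun q : ℝ × X => -(P • (NormedSpace.exp (cV q) - 1))) (-(P • cV)) 0 :=
      ((hE.sub_const 1).const_smul P).neg
    have h1 : HasFDerivAt (fun q : ℝ × X => NormedSpace.exp (-(P • (NormedSpace.exp (cV q) - 1))))
        (-(P • cV)) 0 := by
      have h0 : HasFDerivAt (NormedSpace.exp : W → W) (1 : W →L[ℝ] W)
          (-(P • (NormedSpace.exp (cV (0 : ℝ × X)) - 1))) := by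
        rw [map_zero, NormedSpace.exp_zero, sub_self, smul_zero, neg_zero]
        exact hasFDerivAt_exp_zero
      exact h0.comp (0 : ℝ × X) hu
    have hB : HasFDerivAt (fun q : ℝ × X => 1 + cB q) cB 0 := cB.hasFDerivAt.const_add 1
    have hA : HasFDerivAt (fun q : ℝ × X => 1 + cA q) cA 0 := cA.hasFDerivAt.const_add 1
    have h2 := hA.add ((hE.const_smul P).mul hB)
    have h3 := h1.mul h2
    refine ⟨_, h3.congr_of_eventuallyEq (Filter.Eventually.of_forall fun q => NN_eq P q), ?_⟩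
    intro e x
    have e1 := cA_apply (e, x)
    have e2 := cB_apply (e, x)
    have e3 := cV_apply (e, x)
    simp only at e1 e2 e3
    rw [← e1, ← e2, ← e3]
    simp only [add_apply, smul_apply, neg_apply, map_zero, NormedSpace.exp_zero, sub_self, smul_zero, neg_zero,
      Pi.add_apply, Pi.mul_apply, Pi.smul_apply, smul_eq_mul]
    simp only [add_zero, one_mul, mul_one, mul_neg, Algebra.smul_mul_assoc]
    rw [add_mul, one_mul, Algebra.smul_mul_assoc, one_mul]
    module

end Pool.Agent.N72.HW
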